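import Mathlib

/-!
Entropy of random variables on finite probability spaces, submodularity, and the
conditionally independent extension of a probability space by a kernel.
-/

set_option autoImplicit false

namespace Pool.Agent.Helper20.Ent

open Finset

section basics

variable {Ω Ω' α β γ : Type} [Fintype Ω] [Fintype Ω']

open scoped Classical in
/-- the probability of `X = x` -/
noncomputable def pr (p : Ω → ℝ) (X : Ω → α) (x : α) : ℝ :=
  ∑ ω, if X ω = x then p ω else 0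

/-- Shannon entropy of `X` -/
noncomputable def H (p : Ω → ℝ) (X : Ω → α) : ℝ :=
  -∑ ω, p ω * Real.log (pr p X (X ω))

/-- `p` is a probability mass function -/
structure IsProb (p : Ω → ℝ) : Prop where
  nonneg : ∀ ω, 0 ≤ p ω
  sum_one : ∑ ω, p ω = 1

theorem pr_nonneg {p : Ω → ℝ} (hp : ∀ ω, 0 ≤ p ω) (X : Ω → α) (x : α) : 0 ≤ pr p X x := by
  classical
  unfold pr
  exact Finset.sum_nonneg fun ω _ => by split_ifs <;> simp [hp ω]

theorem le_pr {p : Ω → ℝ} (hp : ∀ ω, 0 ≤ p ω) (X : Ω → α) (ω : Ω) : p ω ≤ pr p X (X ω) := by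
  classical
  unfold pr
  have h := Finset.single_le_sum (f := fun ω' => if X ω' = X ω then p ω' else 0)
    (fun ω' _ => by split_ifs <;> simp [hp ω']) (Finset.mem_univ ω)
  simpa using h

theorem pr_pos {p : Ω → ℝ} (hp : ∀ ω, 0 ≤ p ω) (X : Ω → α) {ω : Ω} (h : p ω ≠ 0) :
    0 < pr p X (X ω) :=
  lt_of_lt_of_le (lt_of_le_of_ne (hp ω) (Ne.symm h)) (le_pr hp X ω)

/-- change of variables -/
theorem sum_mul_comp [Fintype α] (p : Ω → ℝ) (X : Ω → α) (f : α → ℝ) :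
    ∑ ω, p ω * f (X ω) = ∑ x, pr p X x * f x := by
  classical
  unfold pr
  simp only [Finset.sum_mul, ite_mul, zero_mul]
  rw [Finset.sum_comm]
  refine Finset.sum_congr rfl fun ω _ => ?_
  simp

theorem sum_pr [Fintype α] (p : Ω → ℝ) (X : Ω → α) : ∑ x, pr p X x = ∑ ω, p ω := by
  have := sum_mul_comp p X (fun _ => 1)
  simpa using this.symm

theorem pr_comp [Fintype α] (p : Ω → ℝ) (X : Ω → α) (g : α → β) (y : β) :
    pr p (fun ω => g (X ω)) y = pr (pr p X) g y := by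
  classical
  have := sum_mul_comp p X (fun x => if g x = y then 1 else 0)
  unfold pr at this ⊢
  simpa [mul_ite] using this

theorem H_congr (p : Ω → ℝ) {X : Ω → α} {Y : Ω → β}
    (h : ∀ ω ω', X ω = X ω' ↔ Y ω = Y ω') : H p X = H p Y := by
  classical
  unfold H pr
  congr 1
  refine Finset.sum_congr rfl fun ω _ => ?_
  congr 2
  refine Finset.sum_congr rfl fun ω' _ => ?_
  exact if_congr (h ω' ω) rfl rfl

theorem H_eq [Fintype α] (p : Ω → ℝ) (X : Ω → α) :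
    H p X = -∑ x, pr p X x * Real.log (pr p X x) := by
  unfold H
  rw [sum_mul_comp p X (fun x => Real.log (pr p X x))]

theorem H_congr_law [Fintype α] {p : Ω → ℝ} {q : Ω' → ℝ} {X : Ω → α} {Y : Ω' → α}
    (h : pr p X = pr q Y) : H p X = H q Y := by
  rw [H_eq, H_eq, h]

theorem pr_comp_congr [Fintype α] {p : Ω → ℝ} {q : Ω' → ℝ} {X : Ω → α} {Y : Ω' → α}
    (h : pr p X = pr q Y) (g : α → β) :
    pr p (fun ω => g (X ω)) = pr q (fun ω => g (Y ω)) := by
  funext y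
  rw [pr_comp p X g y, pr_comp q Y g y, h]

theorem H_comp_congr [Fintype α] [Fintype β] {p : Ω → ℝ} {q : Ω' → ℝ} {X : Ω → α} {Y : Ω' → α}
    (h : pr p X = pr q Y) (g : α → β) :
    H p (fun ω => g (X ω)) = H q (fun ω => g (Y ω)) :=
  H_congr_law (pr_comp_congr h g)

/-- marginalisation of a pair -/
theorem sum_pr_pair [Fintype α] [Fintype β] (p : Ω → ℝ) (X : Ω → α) (Y : Ω → β) (y : β) :
    ∑ x, pr p (fun ω => (X ω, Y ω)) (x, y) = pr p Y y := by
  classical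
  unfold pr
  rw [Finset.sum_comm]
  refine Finset.sum_congr rfl fun ω _ => ?_
  simp only [Prod.mk.injEq, ite_and]
  simp

theorem sum_pr_pair' [Fintype α] [Fintype β] (p : Ω → ℝ) (X : Ω → α) (Y : Ω → β) (x : α) :
    ∑ y, pr p (fun ω => (X ω, Y ω)) (x, y) = pr p X x := by
  classical
  unfold pr
  rw [Finset.sum_comm]
  refine Finset.sum_congr rfl fun ω _ => ?_
  by_cases h : X ω = x <;> simp [h]

theorem pr_pair_le [Fintype α] [Fintype β] {p : Ω → ℝ} (hp : ∀ ω, 0 ≤ p ω) (X : Ω → α)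
    (Y : Ω → β) (x : α) (y : β) : pr p (fun ω => (X ω, Y ω)) (x, y) ≤ pr p X x := by
  rw [← sum_pr_pair' p X Y x]
  exact Finset.single_le_sum (f := fun y => pr p (fun ω => (X ω, Y ω)) (x, y))
    (fun y _ => pr_nonneg hp _ _) (Finset.mem_univ y)

/-- Submodularity: `I(X;Y|Z) >= 0`. -/
theorem submod [Fintype α] [Fintype β] [Fintype γ] {p : Ω → ℝ} (hp : IsProb p)
    (X : Ω → α) (Y : Ω → β) (Z : Ω → γ) :
    H p (fun ω => (X ω, Y ω, Z ω)) + H p Z
      ≤ H p (fun ω => (X ω, Z ω)) + H p (fun ω => (Y ω, Z ω)) := by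
  classical
  set P := pr p (fun ω => (X ω, Y ω, Z ω)) with hP
  set PX := pr p (fun ω => (X ω, Z ω)) with hPX
  set PY := pr p (fun ω => (Y ω, Z ω)) with hPY
  set PZ := pr p Z with hPZ
  have key : ∑ ω, p ω * (Real.log (PX (X ω, Z ω)) + Real.log (PY (Y ω, Z ω))
      - Real.log (P (X ω, Y ω, Z ω)) - Real.log (PZ (Z ω))) ≤ 0 := by
    have h1 : ∀ ω, p ω * (Real.log (PX (X ω, Z ω)) + Real.log (PY (Y ω, Z ω))
        - Real.log (P (X ω, Y ω, Z ω)) - Real.log (PZ (Z ω)))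
        ≤ p ω * (PX (X ω, Z ω) * PY (Y ω, Z ω) / (P (X ω, Y ω, Z ω) * PZ (Z ω)) - 1) := by
      intro ω
      by_cases h0 : p ω = 0
      · simp [h0]
      · refine mul_le_mul_of_nonneg_left ?_ (hp.nonneg ω)
        have a1 : 0 < PX (X ω, Z ω) := pr_pos hp.nonneg (fun ω => (X ω, Z ω)) h0
        have a2 : 0 < PY (Y ω, Z ω) := pr_pos hp.nonneg (fun ω => (Y ω, Z ω)) h0
        have a3 : 0 < P (X ω, Y ω, Z ω) := pr_pos hp.nonneg (fun ω => (X ω, Y ω, Z ω)) h0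
        have a4 : 0 < PZ (Z ω) := pr_pos hp.nonneg Z h0
        have := Real.log_le_sub_one_of_pos
          (show 0 < PX (X ω, Z ω) * PY (Y ω, Z ω) / (P (X ω, Y ω, Z ω) * PZ (Z ω)) by positivity)
        rw [Real.log_div (by positivity) (by positivity), Real.log_mul a1.ne' a2.ne',
          Real.log_mul a3.ne' a4.ne'] at this
        linarith
    refine (Finset.sum_le_sum fun ω _ => h1 ω).trans ?_
    have h2 : ∑ ω, p ω * (PX (X ω, Z ω) * PY (Y ω, Z ω) / (P (X ω, Y ω, Z ω) * PZ (Z ω)) - 1)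
        = ∑ ω, p ω * (PX (X ω, Z ω) * PY (Y ω, Z ω) / (P (X ω, Y ω, Z ω) * PZ (Z ω))) - 1 := by
      simp only [mul_sub, Finset.sum_sub_distrib, mul_one, hp.sum_one]
    rw [h2]
    have h3 := sum_mul_comp p (fun ω => (X ω, Y ω, Z ω))
      (fun t => PX (t.1, t.2.2) * PY (t.2.1, t.2.2) / (P t * PZ t.2.2))
    simp only at h3
    rw [h3, ← hP]
    have h4 : ∀ t : α × β × γ, P t * (PX (t.1, t.2.2) * PY (t.2.1, t.2.2) / (P t * PZ t.2.2))
        ≤ PX (t.1, t.2.2) * PY (t.2.1, t.2.2) / PZ t.2.2 := by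
      intro t
      by_cases h0 : P t = 0
      · rw [h0, zero_mul]
        exact div_nonneg (mul_nonneg (pr_nonneg hp.nonneg _ _) (pr_nonneg hp.nonneg _ _))
          (pr_nonneg hp.nonneg _ _)
      · refine le_of_eq ?_
        rw [mul_div_mul_comm, ]
        field_simp
    have h5 : ∑ t : α × β × γ, PX (t.1, t.2.2) * PY (t.2.1, t.2.2) / PZ t.2.2 ≤ 1 := by
      rw [Fintype.sum_prod_type]
      simp only [Fintype.sum_prod_type]
      have h6 : ∑ x : α, ∑ y : β, ∑ z : γ, PX (x, z) * PY (y, z) / PZ z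
          = ∑ z : γ, (∑ x : α, PX (x, z)) * (∑ y : β, PY (y, z)) / PZ z := by
        have : ∀ z : γ, (∑ x : α, PX (x, z)) * (∑ y : β, PY (y, z)) / PZ z
            = ∑ x : α, ∑ y : β, PX (x, z) * PY (y, z) / PZ z := by
          intro z
          rw [Finset.sum_mul_sum, Finset.sum_div]
          refine Finset.sum_congr rfl fun x _ => ?_
          rw [Finset.sum_div]
        simp only [this]
        rw [Finset.sum_comm' (s := (Finset.univ : Finset γ)) (t := fun _ => (Finset.univ : Finset α))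
          (t' := Finset.univ) (s' := fun _ => Finset.univ) (by simp)]
        refine Finset.sum_congr rfl fun x _ => ?_
        rw [Finset.sum_comm]
      rw [h6]
      have h7 : ∀ z : γ, (∑ x : α, PX (x, z)) * (∑ y : β, PY (y, z)) / PZ z = PZ z := by
        intro z
        have e1 : ∑ x : α, PX (x, z) = PZ z := sum_pr_pair p X Z z
        have e2 : ∑ y : β, PY (y, z) = PZ z := sum_pr_pair p Y Z z
        rw [e1, e2]
        by_cases h0 : PZ z = 0
        · simp [h0]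
        · field_simp
      simp only [h7]
      rw [hPZ, sum_pr, hp.sum_one]
    linarith [Finset.sum_le_sum fun t (_ : t ∈ (Finset.univ : Finset (α × β × γ))) => h4 t]
  unfold H
  simp only [mul_sub, mul_add, Finset.sum_sub_distrib, Finset.sum_add_distrib] at key
  linarith

/-! ### Extension by a kernel -/

variable {ζ : Type}

/-- Extend `(Ω, p)` by a sample of the kernel `k` at `Z ω`. -/
def extk (p : Ω → ℝ) (Z : Ω → ζ) (k : ζ → β → ℝ) : Ω × β → ℝ :=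
  fun t => p t.1 * k (Z t.1) t.2

/-- The conditional law of `W₀` given `Z₀` under `μ`. -/
noncomputable def ker (μ : Ω' → ℝ) (Z₀ : Ω' → ζ) (W₀ : Ω' → β) (z : ζ) (w : β) : ℝ :=
  pr μ (fun w => (Z₀ w, W₀ w)) (z, w) / pr μ Z₀ z

/-- Extend `(Ω, p)` by a sample `w` of the conditional law of `W₀` given `Z₀ = Z ω`
(under `μ`), independent of everything else. -/
noncomputable def ext (p : Ω → ℝ) (Z : Ω → ζ) (μ : Ω' → ℝ) (Z₀ : Ω' → ζ)
    (W₀ : Ω' → β) : Ω × β → ℝ := extk p Z (ker μ Z₀ W₀)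

theorem sum_ker [Fintype β] [Fintype ζ] (μ : Ω' → ℝ) (Z₀ : Ω' → ζ) (W₀ : Ω' → β) {z : ζ}
    (hz : pr μ Z₀ z ≠ 0) : ∑ w, ker μ Z₀ W₀ z w = 1 := by
  unfold ker
  rw [← Finset.sum_div, sum_pr_pair', div_self hz]

theorem ker_nonneg {μ : Ω' → ℝ} (hμ : ∀ ω, 0 ≤ μ ω) (Z₀ : Ω' → ζ) (W₀ : Ω' → β) (z : ζ)
    (w : β) : 0 ≤ ker μ Z₀ W₀ z w :=
  div_nonneg (pr_nonneg hμ _ _) (pr_nonneg hμ _ _)

/-- the old variables keep their law -/
theorem extk_fst [Fintype β] {p : Ω → ℝ} {Z : Ω → ζ} {k : ζ → β → ℝ}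
    (hk : ∀ ω, p ω ≠ 0 → ∑ w, k (Z ω) w = 1) (G : Ω → γ) :
    pr (extk p Z k) (fun t => G t.1) = pr p G := by
  classical
  funext x
  unfold pr
  rw [Fintype.sum_prod_type]
  refine Finset.sum_congr rfl fun ω _ => ?_
  by_cases h : G ω = x
  · simp only [h, if_true, extk]
    rw [← Finset.mul_sum]
    by_cases h0 : p ω = 0
    · rw [h0, zero_mul]
    · rw [hk ω h0, mul_one]
  · simp [h]

/-- the law of (old variable determining `Z`, new variable) -/
theorem extk_pair [Fintype β] {p : Ω → ℝ} {Z : Ω → ζ} {k : ζ → β → ℝ} (G : Ω → γ) (g : γ → ζ)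
    (hg : ∀ ω, Z ω = g (G ω)) (x : γ) (w : β) :
    pr (extk p Z k) (fun t => (G t.1, t.2)) (x, w) = pr p G x * k (g x) w := by
  classical
  unfold pr
  rw [Fintype.sum_prod_type, Finset.sum_mul]
  refine Finset.sum_congr rfl fun ω _ => ?_
  by_cases h : G ω = x
  · simp only [h, Prod.mk.injEq, true_and, if_true]
    rw [Finset.sum_ite_eq' Finset.univ w]
    simp only [Finset.mem_univ, if_true, extk]
    rw [hg ω, h]
  · simp [h]

theorem ker_sum_of_law [Fintype β] [Fintype ζ] {p : Ω → ℝ} {μ : Ω' → ℝ} (hp : ∀ ω, 0 ≤ p ω)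
    {Z : Ω → ζ} {Z₀ : Ω' → ζ} (W₀ : Ω' → β) (hlaw : pr p Z = pr μ Z₀) :
    ∀ ω, p ω ≠ 0 → ∑ w, ker μ Z₀ W₀ (Z ω) w = 1 := by
  intro ω h0
  refine sum_ker μ Z₀ W₀ ?_
  rw [← hlaw]
  exact (pr_pos hp Z h0).ne'

/-- the old variables keep their law -/
theorem ext_fst [Fintype β] [Fintype ζ] {p : Ω → ℝ} {μ : Ω' → ℝ} (hp : ∀ ω, 0 ≤ p ω)
    {Z : Ω → ζ} {Z₀ : Ω' → ζ} (W₀ : Ω' → β) (hlaw : pr p Z = pr μ Z₀) (G : Ω → γ) :
    pr (ext p Z μ Z₀ W₀) (fun t => G t.1) = pr p G :=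
  extk_fst (ker_sum_of_law hp W₀ hlaw) G

theorem ext_isProb [Fintype β] [Fintype ζ] {p : Ω → ℝ} {μ : Ω' → ℝ} (hp : IsProb p)
    (hμ : IsProb μ) {Z : Ω → ζ} {Z₀ : Ω' → ζ} (W₀ : Ω' → β) (hlaw : pr p Z = pr μ Z₀) :
    IsProb (ext p Z μ Z₀ W₀) := by
  classical
  refine ⟨fun t => mul_nonneg (hp.nonneg _) (ker_nonneg hμ.nonneg _ _ _ _), ?_⟩
  have h := congrFun (ext_fst hp.nonneg W₀ hlaw (fun _ : Ω => ())) ()
  simp only [pr, if_true] at h
  rw [h, hp.sum_one]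

/-- the joint law of `Z` and the new variable -/
theorem ext_new [Fintype β] [Fintype ζ] {p : Ω → ℝ} {μ : Ω' → ℝ} (hμ : ∀ ω, 0 ≤ μ ω)
    {Z : Ω → ζ} {Z₀ : Ω' → ζ} (W₀ : Ω' → β) (hlaw : pr p Z = pr μ Z₀) :
    pr (ext p Z μ Z₀ W₀) (fun t => (Z t.1, t.2)) = pr μ (fun w => (Z₀ w, W₀ w)) := by
  funext t
  obtain ⟨z, w⟩ := t
  unfold ext
  rw [extk_pair Z (fun z => z) (fun _ => rfl) z w, hlaw]
  unfold ker
  by_cases h0 : pr μ Z₀ z = 0
  · rw [h0, zero_mul]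
    exact le_antisymm (pr_nonneg hμ _ _) (h0 ▸ pr_pair_le hμ Z₀ W₀ z w)
  · field_simp

/-- conditional independence of the new variable from the old ones given `Z` -/
theorem ext_indep [Fintype β] [Fintype ζ] {p : Ω → ℝ} {μ : Ω' → ℝ} (hp : ∀ ω, 0 ≤ p ω)
    {Z : Ω → ζ} {Z₀ : Ω' → ζ} (W₀ : Ω' → β) (hlaw : pr p Z = pr μ Z₀)
    (G : Ω → γ) (g : γ → ζ) (hg : ∀ ω, Z ω = g (G ω)) :
    H (ext p Z μ Z₀ W₀) (fun t => (G t.1, t.2)) + H (ext p Z μ Z₀ W₀) (fun t => Z t.1)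
      = H (ext p Z μ Z₀ W₀) (fun t => G t.1) + H (ext p Z μ Z₀ W₀) (fun t => (Z t.1, t.2)) := by
  unfold H
  rw [← neg_add, ← neg_add, ← Finset.sum_add_distrib, ← Finset.sum_add_distrib]
  congr 1
  refine Finset.sum_congr rfl fun t _ => ?_
  obtain ⟨ω, w⟩ := t
  rw [← mul_add, ← mul_add]
  by_cases h0 : ext p Z μ Z₀ W₀ (ω, w) = 0
  · rw [h0, zero_mul, zero_mul]
  · congr 1
    simp only
    rw [ext_fst hp W₀ hlaw, ext_fst hp W₀ hlaw]
    have hpω : p ω ≠ 0 := by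
      intro h
      apply h0
      simp [ext, extk, h]
    have hk : ker μ Z₀ W₀ (Z ω) w ≠ 0 := by
      intro h
      apply h0
      simp only [ext, extk]
      rw [h, mul_zero]
    unfold ext
    rw [extk_pair G g hg, extk_pair Z (fun z => z) (fun _ => rfl), ← hg]
    rw [Real.log_mul (pr_pos hp G hpω).ne' hk, Real.log_mul (pr_pos hp Z hpω).ne' hk]
    ring

end basics

end Pool.Agent.Helper20.Ent
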