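import Mathlib

/-!
# MP_4da6ae_lc: interface for the proof that L_4 is not semialgebraic

`Hf p X S` is literally the entropy term of the frozen statement S14678 (for k = 4),
`Valid c` is its left-hand side.  `cx`, `cB`, `cH` are the coefficient vectors of
`I(a;b)`, `I(b;cd|a)` and of the sum
`I(a;b|c) + I(a;b|d) + I(c;d) + I(a;c|b) + I(a;d|b) + I(c;d|a)` (a,b,c,d = 0,1,2,3).

* (C) helper20:  `star`      : `Valid ((1/2)^s * cB + (2 s + 1) * cH - cx)` for all `s`.
* (B)          :  `rare`      : `forall L, exists t > 0, not (Valid (t * cB + L * cH - cx))`.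
* (A)          :  `reduction` : no polynomial description (abstract statement).
-/

set_option autoImplicit false

namespace Pool.Agent.Helper20.Ent

open Finset

/-- The entropy of the subtuple `S`, as in the frozen statement. -/
noncomputable def Hf {N : ℕ} (p : Fin N → ℝ) (X : Fin 4 → Fin N → Fin N)
    (S : Finset (Fin 4)) : ℝ :=
  -∑ ω, p ω * Real.log (∑ ω', if (∀ i ∈ S, X i ω' = X i ω) then p ω' else 0)

/-- The coefficient vector `c` is a valid linear information inequality. -/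
def Valid (c : Finset (Fin 4) → ℝ) : Prop :=
  ∀ (N : ℕ) (p : Fin N → ℝ) (X : Fin 4 → Fin N → Fin N),
    (∀ ω, 0 ≤ p ω) → ∑ ω, p ω = 1 → 0 ≤ ∑ S : Finset (Fin 4), c S * Hf p X S

/-- `I(a;b)` as a functional of the entropy vector. -/
def fx (h : Finset (Fin 4) → ℝ) : ℝ := h {0} + h {1} - h {0, 1}

/-- `I(b;cd|a)`. -/
def fB (h : Finset (Fin 4) → ℝ) : ℝ := h {0, 1} + h {0, 2, 3} - h {0, 1, 2, 3} - h {0}

/-- `I(a;b|c) + I(a;b|d) + I(c;d) + I(a;c|b) + I(a;d|b) + I(c;d|a)`. -/
def fH (h : Finset (Fin 4) → ℝ) : ℝ :=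
  (h {0, 2} + h {1, 2} - h {0, 1, 2} - h {2}) +
  (h {0, 3} + h {1, 3} - h {0, 1, 3} - h {3}) +
  (h {2} + h {3} - h {2, 3}) +
  (h {0, 1} + h {1, 2} - h {0, 1, 2} - h {1}) +
  (h {0, 1} + h {1, 3} - h {0, 1, 3} - h {1}) +
  (h {0, 2} + h {0, 3} - h {0, 2, 3} - h {0})

/-- unit coefficient vector -/
def e (T : Finset (Fin 4)) : Finset (Fin 4) → ℝ := fun S => if S = T then 1 else 0

/-- coefficient vector of `fx` -/
def cx (S : Finset (Fin 4)) : ℝ := fx fun T => e T S

/-- coefficient vector of `fB` -/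
def cB (S : Finset (Fin 4)) : ℝ := fB fun T => e T S

/-- coefficient vector of `fH` -/
def cH (S : Finset (Fin 4)) : ℝ := fH fun T => e T S

theorem sum_e (T : Finset (Fin 4)) (h : Finset (Fin 4) → ℝ) :
    ∑ S : Finset (Fin 4), e T S * h S = h T := by
  simp [e, ite_mul]

theorem sum_cx (h : Finset (Fin 4) → ℝ) : ∑ S : Finset (Fin 4), cx S * h S = fx h := by
  simp only [cx, fx, sub_mul, add_mul, Finset.sum_add_distrib, Finset.sum_sub_distrib, sum_e]

theorem sum_cB (h : Finset (Fin 4) → ℝ) : ∑ S : Finset (Fin 4), cB S * h S = fB h := by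
  simp only [cB, fB, sub_mul, add_mul, Finset.sum_add_distrib, Finset.sum_sub_distrib, sum_e]

theorem sum_cH (h : Finset (Fin 4) → ℝ) : ∑ S : Finset (Fin 4), cH S * h S = fH h := by
  simp only [cH, fH, sub_mul, add_mul, Finset.sum_add_distrib, Finset.sum_sub_distrib, sum_e]

/-- the value of the combination `t B + L H - x` -/
theorem sum_comb (t L : ℝ) (h : Finset (Fin 4) → ℝ) :
    ∑ S : Finset (Fin 4), (t * cB S + L * cH S - cx S) * h S
      = t * fB h + L * fH h - fx h := by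
  simp only [sub_mul, add_mul, Finset.sum_add_distrib, Finset.sum_sub_distrib, mul_assoc,
    ← Finset.mul_sum, sum_cx, sum_cB, sum_cH]

theorem valid_comb_iff (t L : ℝ) :
    Valid (fun S => t * cB S + L * cH S - cx S) ↔
      ∀ (N : ℕ) (p : Fin N → ℝ) (X : Fin 4 → Fin N → Fin N),
        (∀ ω, 0 ≤ p ω) → ∑ ω, p ω = 1 → fx (Hf p X) ≤ t * fB (Hf p X) + L * fH (Hf p X) := by
  unfold Valid
  simp only [sum_comb, sub_nonneg]

end Pool.Agent.Helper20.Ent
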