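import Pool.Agent.Helper20.Ent.Step

/-!
The inequality
`I(a;b) <= 2^{-s} I(b;cd|a) + (2s+1) (I(a;b|c)+I(a;b|d)+I(c;d)+I(a;c|b)+I(a;d|b)+I(c;d|a))`.
-/

set_option autoImplicit false

namespace Pool.Agent.Helper20.Ent

open Finset

section

variable {Ω Ω₀ V : Type} [Fintype Ω] [Fintype Ω₀] [Fintype V]

/-- heavy increment of one step -/
def fE (h : Finset (Fin 4) → ℝ) : ℝ := f1 h + f2 h + f4 h + f5 h

section nonneg

variable {p : Ω → ℝ} (hp : IsProb p) (X : Fin 4 → Ω → V)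
include hp

theorem f1_nonneg : 0 ≤ f1 (hh p X) := by
  have := sub4 (hh_submod hp X) {0,2} {1,2} {0,1,2} {2} (by decide) (by decide)
  unfold f1; linarith
theorem f2_nonneg : 0 ≤ f2 (hh p X) := by
  have := sub4 (hh_submod hp X) {0,3} {1,3} {0,1,3} {3} (by decide) (by decide)
  unfold f2; linarith
theorem hh_empty : hh p X ∅ = 0 := by
  have h := hh_eq_of_rel p X ∅ (fun _ => ()) (by simp)
  rw [h]
  unfold H pr
  simp [hp.sum_one]
theorem f3_nonneg : 0 ≤ f3 (hh p X) := by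
  have := sub4 (hh_submod hp X) {2} {3} {2,3} ∅ (by decide) (by decide)
  rw [hh_empty hp X] at this
  unfold f3; linarith
theorem f4_nonneg : 0 ≤ f4 (hh p X) := by
  have := sub4 (hh_submod hp X) {0,1} {1,2} {0,1,2} {1} (by decide) (by decide)
  unfold f4; linarith
theorem f5_nonneg : 0 ≤ f5 (hh p X) := by
  have := sub4 (hh_submod hp X) {0,1} {1,3} {0,1,3} {1} (by decide) (by decide)
  unfold f5; linarith
theorem f6_nonneg : 0 ≤ f6 (hh p X) := by
  have := sub4 (hh_submod hp X) {0,2} {0,3} {0,2,3} {0} (by decide) (by decide)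
  unfold f6; linarith
theorem fB_hh_nonneg : 0 ≤ fB (hh p X) := by
  have := sub4 (hh_submod hp X) {0,1} {0,2,3} {0,1,2,3} {0} (by decide) (by decide)
  unfold fB; linarith

/-- the basic (Shannon) inequality -/
theorem basic_ineq : fx (hh p X) ≤ f1 (hh p X) + f2 (hh p X) + f3 (hh p X) + fB (hh p X) := by
  have i1 := sub4 (hh_submod hp X) {0,1} {0,2} {0,1,2} {0} (by decide) (by decide)
  have i2 := sub4 (hh_submod hp X) {0,1} {0,3} {0,1,3} {0} (by decide) (by decide)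
  have i3 := sub4 (hh_submod hp X) {1,2} {1,3} {1,2,3} {1} (by decide) (by decide)
  have i4 := sub4 (hh_submod hp X) {0,2,3} {1,2,3} {0,1,2,3} {2,3} (by decide) (by decide)
  unfold fx f1 f2 f3 fB
  linarith

end nonneg

/-- The first six variables on the first extension. -/
def X6 (X : Fin 4 → Ω → V) : Fin 6 → (Ω × (V × V)) → V :=
  ![fun t => X 0 t.1, fun t => X 1 t.1, fun t => X 2 t.1, fun t => X 3 t.1,
    fun t => t.2.1, fun t => t.2.2]

variable {μ : Ω₀ → ℝ} (hμ : IsProb μ) (Y : Fin 4 → Ω₀ → V) {p : Ω → ℝ} (hp : IsProb p)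
  (X : Fin 4 → Ω → V) (hab : pr p (fun ω => (X 0 ω, X 1 ω)) = pr μ (fun ω => (Y 0 ω, Y 1 ω)))
  (sel : V × V → V)

include hμ hp hab

theorem K6 (S : Finset (Fin 6)) (T : Finset (Fin 7)) (hT : S.image Fin.castSucc = T) :
    hh (p2 sel μ Y p X) (X7 X) T = hh (p1 μ Y p X) (X6 X) S := by
  classical
  subst hT
  have h := hh_law (p := p2 sel μ Y p X) (q := p1 μ Y p X) (X := X7 X) (Y := X6 X)
    (Fin.castSucc : Fin 6 → Fin 7) (fun i => i) ?_ S
  · simpa using h
  · have e : (fun (ω : (Ω × (V × V)) × V) (i : Fin 6) => X7 X (Fin.castSucc i) ω)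
        = fun t => fun i => X6 X i t.1 := by
      funext t i
      fin_cases i <;> rfl
    rw [e]
    exact p2_fst hμ Y hp X hab sel (fun t => fun i => X6 X i t)

theorem new_ab_fst : pr (p2 Prod.fst μ Y p X) (fun t => (X7 X 0 t, X7 X 6 t))
    = pr μ (fun ω => (Y 0 ω, Y 1 ω)) :=
  pr_comp_congr (p2_law hμ Y hp X hab Prod.fst) (fun v : (V × V) × V => (v.1.1, v.2))

theorem new_ab_snd : pr (p2 Prod.snd μ Y p X) (fun t => (X7 X 0 t, X7 X 6 t))
    = pr μ (fun ω => (Y 0 ω, Y 1 ω)) :=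
  pr_comp_congr (p2_law hμ Y hp X hab Prod.snd) (fun v : (V × V) × V => (v.1.1, v.2))

theorem new_acd : pr (p2 sel μ Y p X) (fun t => (X7 X 0 t, X7 X 2 t, X7 X 3 t))
    = pr p (fun ω => (X 0 ω, X 2 ω, X 3 ω)) :=
  (p2_fst hμ Y hp X hab sel (fun t => (X 0 t.1, X 2 t.1, X 3 t.1))).trans
    (p1_fst hμ Y hp X hab (fun ω => (X 0 ω, X 2 ω, X 3 ω)))

/-- entropies of the new 4-tuple -/
theorem hh_new (S : Finset (Fin 4)) (T : Finset (Fin 7)) (hT : S.image ![0,6,2,3] = T) :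
    hh (p2 sel μ Y p X) (fun i => X7 X ((![0,6,2,3] : Fin 4 → Fin 7) i)) S
      = hh (p2 sel μ Y p X) (X7 X) T := by
  subst hT
  rw [hh_image]
  rfl

/-- one step of the chain -/
theorem step
    (hacd : pr p (fun ω => (X 0 ω, X 2 ω, X 3 ω)) = pr μ (fun ω => (Y 0 ω, Y 2 ω, Y 3 ω))) :
    ∃ (Ω' : Type) (_ : Fintype Ω') (p' : Ω' → ℝ) (X' : Fin 4 → Ω' → V),
    IsProb p' ∧ pr p' (fun ω => (X' 0 ω, X' 1 ω)) = pr μ (fun ω => (Y 0 ω, Y 1 ω)) ∧
    pr p' (fun ω => (X' 0 ω, X' 2 ω, X' 3 ω)) = pr μ (fun ω => (Y 0 ω, Y 2 ω, Y 3 ω)) ∧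
    fB (hh p' X') ≤ (fB (hh p X) + f6 (hh μ Y)) / 2 ∧
    f1 (hh p' X') ≤ f1 (hh p X) + fE (hh μ Y) ∧
    f2 (hh p' X') ≤ f2 (hh p X) + fE (hh μ Y) := by
  classical
  have n1 := f1_nonneg hμ Y
  have n2 := f2_nonneg hμ Y
  have n4 := f4_nonneg hμ Y
  have n5 := f5_nonneg hμ Y
  have k0 := K0 hμ Y hp X hab
  have k1 := K1 hμ Y hp X hab
  have k6 := K6 hμ Y hp X hab
  -- the sum over the two types
  have hsum := poly_halve (hh_submod (p2_isProb hμ Y hp X hab Prod.fst) (X7 X))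
    (Q1 hμ Y hp X hab Prod.fst)
  by_cases hc : hh (p1 μ Y p X) (X6 X) {0,4} - hh (p1 μ Y p X) (X6 X) {0,2,3,4}
      ≤ hh (p1 μ Y p X) (X6 X) {0,5} - hh (p1 μ Y p X) (X6 X) {0,2,3,5}
  · refine ⟨_, inferInstance, p2 Prod.fst μ Y p X,
      fun i => X7 X ((![0,6,2,3] : Fin 4 → Fin 7) i), p2_isProb hμ Y hp X hab _,
      new_ab_fst hμ Y hp X hab, (new_acd hμ Y hp X hab _).trans hacd, ?_, ?_, ?_⟩
    · have hdp := poly_dp4 (hh_submod (p2_isProb hμ Y hp X hab Prod.fst) (X7 X))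
        (Q2_fst hμ Y hp X hab)
      unfold fB
      rw [hh_new hμ Y hp X hab Prod.fst {0,1} {0,6} (by decide),
        hh_new hμ Y hp X hab Prod.fst {0,2,3} {0,2,3} (by decide),
        hh_new hμ Y hp X hab Prod.fst {0,1,2,3} {0,2,3,6} (by decide),
        hh_new hμ Y hp X hab Prod.fst {0} {0} (by decide)]
      rw [← k6 Prod.fst {0,4} {0,4} (by decide), ← k6 Prod.fst {0,2,3,4} {0,2,3,4} (by decide),
        ← k6 Prod.fst {0,5} {0,5} (by decide), ← k6 Prod.fst {0,2,3,5} {0,2,3,5} (by decide)] at hc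
      rw [← k0 Prod.fst {0,1} {0,1} (by decide), ← k0 Prod.fst {0,2,3} {0,2,3} (by decide),
        ← k0 Prod.fst {0,1,2,3} {0,1,2,3} (by decide), ← k0 Prod.fst {0} {0} (by decide)]
      unfold f6
      rw [← k1 Prod.fst {0,2} {0,4} (by decide), ← k1 Prod.fst {0,3} {0,5} (by decide),
        ← k1 Prod.fst {0,2,3} {0,4,5} (by decide), ← k1 Prod.fst {0} {0} (by decide)]
      linarith
    · have hh1 := poly_heavy24 (hh_submod (p2_isProb hμ Y hp X hab Prod.fst) (X7 X))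
        (Q1 hμ Y hp X hab Prod.fst) (Q2_fst hμ Y hp X hab)
      have e1 : f1 (hh (p2 Prod.fst μ Y p X) (fun i => X7 X ((![0,6,2,3] : Fin 4 → Fin 7) i)))
          ≤ f1 (hh p X) + f4 (hh μ Y) + f1 (hh μ Y) := by
        unfold f1 f4
        rw [hh_new hμ Y hp X hab Prod.fst {0,2} {0,2} (by decide),
          hh_new hμ Y hp X hab Prod.fst {1,2} {2,6} (by decide),
          hh_new hμ Y hp X hab Prod.fst {0,1,2} {0,2,6} (by decide),
          hh_new hμ Y hp X hab Prod.fst {2} {2} (by decide)]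
        rw [← k0 Prod.fst {0,2} {0,2} (by decide), ← k0 Prod.fst {1,2} {1,2} (by decide),
          ← k0 Prod.fst {0,1,2} {0,1,2} (by decide), ← k0 Prod.fst {2} {2} (by decide)]
        have a1 := k1 Prod.fst {0,1} {0,1} (by decide)
        have a2 := k1 Prod.fst {1,2} {1,4} (by decide)
        have a3 := k1 Prod.fst {0,1,2} {0,1,4} (by decide)
        have a4 := k1 Prod.fst {1} {1} (by decide)
        have b1 := K2_fst hμ Y hp X hab {0,2} {0,4} {0,2} (by decide) (by decide)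
        have b2 := K2_fst hμ Y hp X hab {1,2} {4,6} {1,2} (by decide) (by decide)
        have b3 := K2_fst hμ Y hp X hab {0,1,2} {0,4,6} {0,1,2} (by decide) (by decide)
        have b4 := K2_fst hμ Y hp X hab {2} {4} {2} (by decide) (by decide)
        linarith
      unfold fE
      linarith
    · have hh1 := poly_heavy34 (hh_submod (p2_isProb hμ Y hp X hab Prod.fst) (X7 X))
        (Q1 hμ Y hp X hab Prod.fst) (Q2_fst hμ Y hp X hab)
      have e1 : f2 (hh (p2 Prod.fst μ Y p X) (fun i => X7 X ((![0,6,2,3] : Fin 4 → Fin 7) i)))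
          ≤ f2 (hh p X) + f4 (hh μ Y) + f1 (hh μ Y) := by
        unfold f1 f2 f4
        rw [hh_new hμ Y hp X hab Prod.fst {0,3} {0,3} (by decide),
          hh_new hμ Y hp X hab Prod.fst {1,3} {3,6} (by decide),
          hh_new hμ Y hp X hab Prod.fst {0,1,3} {0,3,6} (by decide),
          hh_new hμ Y hp X hab Prod.fst {3} {3} (by decide)]
        rw [← k0 Prod.fst {0,3} {0,3} (by decide), ← k0 Prod.fst {1,3} {1,3} (by decide),
          ← k0 Prod.fst {0,1,3} {0,1,3} (by decide), ← k0 Prod.fst {3} {3} (by decide)]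
        have a1 := k1 Prod.fst {0,1} {0,1} (by decide)
        have a2 := k1 Prod.fst {1,2} {1,4} (by decide)
        have a3 := k1 Prod.fst {0,1,2} {0,1,4} (by decide)
        have a4 := k1 Prod.fst {1} {1} (by decide)
        have b1 := K2_fst hμ Y hp X hab {0,2} {0,4} {0,2} (by decide) (by decide)
        have b2 := K2_fst hμ Y hp X hab {1,2} {4,6} {1,2} (by decide) (by decide)
        have b3 := K2_fst hμ Y hp X hab {0,1,2} {0,4,6} {0,1,2} (by decide) (by decide)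
        have b4 := K2_fst hμ Y hp X hab {2} {4} {2} (by decide) (by decide)
        linarith
      unfold fE
      linarith
  · push Not at hc
    refine ⟨_, inferInstance, p2 Prod.snd μ Y p X,
      fun i => X7 X ((![0,6,2,3] : Fin 4 → Fin 7) i), p2_isProb hμ Y hp X hab _,
      new_ab_snd hμ Y hp X hab, (new_acd hμ Y hp X hab _).trans hacd, ?_, ?_, ?_⟩
    · have hdp := poly_dp5 (hh_submod (p2_isProb hμ Y hp X hab Prod.snd) (X7 X))
        (Q2_snd hμ Y hp X hab)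
      have hsum := poly_halve (hh_submod (p2_isProb hμ Y hp X hab Prod.snd) (X7 X))
        (Q1 hμ Y hp X hab Prod.snd)
      unfold fB
      rw [hh_new hμ Y hp X hab Prod.snd {0,1} {0,6} (by decide),
        hh_new hμ Y hp X hab Prod.snd {0,2,3} {0,2,3} (by decide),
        hh_new hμ Y hp X hab Prod.snd {0,1,2,3} {0,2,3,6} (by decide),
        hh_new hμ Y hp X hab Prod.snd {0} {0} (by decide)]
      rw [← k6 Prod.snd {0,4} {0,4} (by decide), ← k6 Prod.snd {0,2,3,4} {0,2,3,4} (by decide),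
        ← k6 Prod.snd {0,5} {0,5} (by decide), ← k6 Prod.snd {0,2,3,5} {0,2,3,5} (by decide)] at hc
      rw [← k0 Prod.snd {0,1} {0,1} (by decide), ← k0 Prod.snd {0,2,3} {0,2,3} (by decide),
        ← k0 Prod.snd {0,1,2,3} {0,1,2,3} (by decide), ← k0 Prod.snd {0} {0} (by decide)]
      unfold f6
      rw [← k1 Prod.snd {0,2} {0,4} (by decide), ← k1 Prod.snd {0,3} {0,5} (by decide),
        ← k1 Prod.snd {0,2,3} {0,4,5} (by decide), ← k1 Prod.snd {0} {0} (by decide)]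
      linarith
    · have hh1 := poly_heavy25 (hh_submod (p2_isProb hμ Y hp X hab Prod.snd) (X7 X))
        (Q1 hμ Y hp X hab Prod.snd) (Q2_snd hμ Y hp X hab)
      have e1 : f1 (hh (p2 Prod.snd μ Y p X) (fun i => X7 X ((![0,6,2,3] : Fin 4 → Fin 7) i)))
          ≤ f1 (hh p X) + f5 (hh μ Y) + f2 (hh μ Y) := by
        unfold f1 f2 f5
        rw [hh_new hμ Y hp X hab Prod.snd {0,2} {0,2} (by decide),
          hh_new hμ Y hp X hab Prod.snd {1,2} {2,6} (by decide),
          hh_new hμ Y hp X hab Prod.snd {0,1,2} {0,2,6} (by decide),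
          hh_new hμ Y hp X hab Prod.snd {2} {2} (by decide)]
        rw [← k0 Prod.snd {0,2} {0,2} (by decide), ← k0 Prod.snd {1,2} {1,2} (by decide),
          ← k0 Prod.snd {0,1,2} {0,1,2} (by decide), ← k0 Prod.snd {2} {2} (by decide)]
        have a1 := k1 Prod.snd {0,1} {0,1} (by decide)
        have a2 := k1 Prod.snd {1,3} {1,5} (by decide)
        have a3 := k1 Prod.snd {0,1,3} {0,1,5} (by decide)
        have a4 := k1 Prod.snd {1} {1} (by decide)
        have b1 := K2_snd hμ Y hp X hab {0,2} {0,5} {0,3} (by decide) (by decide)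
        have b2 := K2_snd hμ Y hp X hab {1,2} {5,6} {1,3} (by decide) (by decide)
        have b3 := K2_snd hμ Y hp X hab {0,1,2} {0,5,6} {0,1,3} (by decide) (by decide)
        have b4 := K2_snd hμ Y hp X hab {2} {5} {3} (by decide) (by decide)
        linarith
      unfold fE
      linarith
    · have hh1 := poly_heavy35 (hh_submod (p2_isProb hμ Y hp X hab Prod.snd) (X7 X))
        (Q1 hμ Y hp X hab Prod.snd) (Q2_snd hμ Y hp X hab)
      have e1 : f2 (hh (p2 Prod.snd μ Y p X) (fun i => X7 X ((![0,6,2,3] : Fin 4 → Fin 7) i)))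
          ≤ f2 (hh p X) + f5 (hh μ Y) + f2 (hh μ Y) := by
        unfold f2 f5
        rw [hh_new hμ Y hp X hab Prod.snd {0,3} {0,3} (by decide),
          hh_new hμ Y hp X hab Prod.snd {1,3} {3,6} (by decide),
          hh_new hμ Y hp X hab Prod.snd {0,1,3} {0,3,6} (by decide),
          hh_new hμ Y hp X hab Prod.snd {3} {3} (by decide)]
        rw [← k0 Prod.snd {0,3} {0,3} (by decide), ← k0 Prod.snd {1,3} {1,3} (by decide),
          ← k0 Prod.snd {0,1,3} {0,1,3} (by decide), ← k0 Prod.snd {3} {3} (by decide)]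
        have a1 := k1 Prod.snd {0,1} {0,1} (by decide)
        have a2 := k1 Prod.snd {1,3} {1,5} (by decide)
        have a3 := k1 Prod.snd {0,1,3} {0,1,5} (by decide)
        have a4 := k1 Prod.snd {1} {1} (by decide)
        have b1 := K2_snd hμ Y hp X hab {0,2} {0,5} {0,3} (by decide) (by decide)
        have b2 := K2_snd hμ Y hp X hab {1,2} {5,6} {1,3} (by decide) (by decide)
        have b3 := K2_snd hμ Y hp X hab {0,1,2} {0,5,6} {0,1,3} (by decide) (by decide)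
        have b4 := K2_snd hμ Y hp X hab {2} {5} {3} (by decide) (by decide)
        linarith
      unfold fE
      linarith

omit hp hab in
/-- `s` steps of the chain -/
theorem chain (s : ℕ) : ∃ (Ω' : Type) (_ : Fintype Ω') (p' : Ω' → ℝ) (X' : Fin 4 → Ω' → V),
    IsProb p' ∧ pr p' (fun ω => (X' 0 ω, X' 1 ω)) = pr μ (fun ω => (Y 0 ω, Y 1 ω)) ∧
    pr p' (fun ω => (X' 0 ω, X' 2 ω, X' 3 ω)) = pr μ (fun ω => (Y 0 ω, Y 2 ω, Y 3 ω)) ∧
    fB (hh p' X') ≤ (1/2) ^ s * fB (hh μ Y) + (1 - (1/2) ^ s) * f6 (hh μ Y) ∧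
    f1 (hh p' X') ≤ f1 (hh μ Y) + s * fE (hh μ Y) ∧
    f2 (hh p' X') ≤ f2 (hh μ Y) + s * fE (hh μ Y) := by
  induction s with
  | zero => exact ⟨Ω₀, inferInstance, μ, Y, hμ, rfl, rfl, by simp, by simp, by simp⟩
  | succ s ih =>
    obtain ⟨Ω', _, p', X', hp', hab', hacd', hB, h1, h2⟩ := ih
    obtain ⟨Ω'', hF, p'', X'', hp'', hab'', hacd'', hB'', h1'', h2''⟩ :=
      step hμ Y hp' X' hab' hacd'
    refine ⟨Ω'', hF, p'', X'', hp'', hab'', hacd'', ?_, ?_, ?_⟩
    · refine hB''.trans ?_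
      rw [pow_succ]
      linarith
    · push_cast
      linarith
    · push_cast
      linarith

omit hp hab in
/-- The inequality `(star_s)` for an arbitrary finite probability space. -/
theorem star_general (s : ℕ) : fx (hh μ Y) ≤ (1/2) ^ s * fB (hh μ Y)
    + (2 * s + 1) * (f1 (hh μ Y) + f2 (hh μ Y) + f3 (hh μ Y) + f4 (hh μ Y) + f5 (hh μ Y)
      + f6 (hh μ Y)) := by
  classical
  obtain ⟨Ω', _, p', X', hp', hab', hacd', hB, h1, h2⟩ := chain hμ Y s
  have hb := basic_ineq hp' X'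
  have n1 := f1_nonneg hμ Y
  have n2 := f2_nonneg hμ Y
  have n3 := f3_nonneg hμ Y
  have n4 := f4_nonneg hμ Y
  have n5 := f5_nonneg hμ Y
  have n6 := f6_nonneg hμ Y
  -- `fx` is unchanged
  have ex : fx (hh p' X') = fx (hh μ Y) := by
    have g : ∀ S : Finset (Fin 2), hh p' X' (S.image ![0,1]) = hh μ Y (S.image ![0,1]) := by
      refine hh_law (![0,1] : Fin 2 → Fin 4) (![0,1] : Fin 2 → Fin 4) ?_
      have e : ∀ {Ω : Type} (Z : Fin 4 → Ω → V), (fun (ω : Ω) (i : Fin 2) =>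
          Z ((![0,1] : Fin 2 → Fin 4) i) ω)
          = fun ω => (fun v : V × V => (![v.1, v.2] : Fin 2 → V)) (Z 0 ω, Z 1 ω) := by
        intro Ω Z
        funext ω i
        fin_cases i <;> rfl
      rw [e X', e Y]
      exact pr_comp_congr hab' (fun v : V × V => (![v.1, v.2] : Fin 2 → V))
    have g1 := g {0}
    have g2 := g {1}
    have g3 := g {0,1}
    rw [show ({0} : Finset (Fin 2)).image ![0,1] = ({0} : Finset (Fin 4)) by decide] at g1
    rw [show ({1} : Finset (Fin 2)).image ![0,1] = ({1} : Finset (Fin 4)) by decide] at g2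
    rw [show ({0,1} : Finset (Fin 2)).image ![0,1] = ({0,1} : Finset (Fin 4)) by decide] at g3
    unfold fx
    rw [g1, g2, g3]
  have e3 : f3 (hh p' X') = f3 (hh μ Y) := by
    have g : ∀ S : Finset (Fin 2), hh p' X' (S.image ![2,3]) = hh μ Y (S.image ![2,3]) := by
      refine hh_law (![2,3] : Fin 2 → Fin 4) (![2,3] : Fin 2 → Fin 4) ?_
      have e : ∀ {Ω : Type} (Z : Fin 4 → Ω → V), (fun (ω : Ω) (i : Fin 2) =>
          Z ((![2,3] : Fin 2 → Fin 4) i) ω)
          = fun ω => (fun v : V × V × V => (![v.2.1, v.2.2] : Fin 2 → V)) (Z 0 ω, Z 2 ω, Z 3 ω) := by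
        intro Ω Z
        funext ω i
        fin_cases i <;> rfl
      rw [e X', e Y]
      exact pr_comp_congr hacd' (fun v : V × V × V => (![v.2.1, v.2.2] : Fin 2 → V))
    have g1 := g {0}
    have g2 := g {1}
    have g3 := g {0,1}
    rw [show ({0} : Finset (Fin 2)).image ![2,3] = ({2} : Finset (Fin 4)) by decide] at g1
    rw [show ({1} : Finset (Fin 2)).image ![2,3] = ({3} : Finset (Fin 4)) by decide] at g2
    rw [show ({0,1} : Finset (Fin 2)).image ![2,3] = ({2,3} : Finset (Fin 4)) by decide] at g3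
    unfold f3
    rw [g1, g2, g3]
  rw [ex, e3] at hb
  have hpow : (0:ℝ) ≤ (1/2) ^ s := by positivity
  have hs0 : (0:ℝ) ≤ s := Nat.cast_nonneg s
  have m3 : 0 ≤ (s:ℝ) * f3 (hh μ Y) := mul_nonneg hs0 n3
  have m6 : 0 ≤ (s:ℝ) * f6 (hh μ Y) := mul_nonneg hs0 n6
  have m6' : 0 ≤ (1/2 : ℝ) ^ s * f6 (hh μ Y) := mul_nonneg hpow n6
  unfold fE at h1 h2
  nlinarith

end

/-! ### The language of the frozen statement -/

theorem Hf_eq_hh {N : ℕ} (p : Fin N → ℝ) (X : Fin 4 → Fin N → Fin N) : Hf p X = hh p X := by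
  classical
  funext S
  unfold Hf hh H pr
  congr 1
  refine Finset.sum_congr rfl fun ω _ => ?_
  congr 2
  refine Finset.sum_congr rfl fun ω' _ => ?_
  have hiff : (∀ i ∈ S, X i ω' = X i ω)
      ↔ ((fun (i : S) => X i ω') = fun (i : S) => X i ω) := by
    rw [funext_iff]
    simp
  by_cases hc : ∀ i ∈ S, X i ω' = X i ω
  · rw [if_pos hc]
    exact (if_pos (hiff.1 hc)).symm
  · rw [if_neg hc]
    exact (if_neg fun h => hc (hiff.2 h)).symm

theorem fH_eq (h : Finset (Fin 4) → ℝ) : fH h = f1 h + f2 h + f3 h + f4 h + f5 h + f6 h := rfl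

/-- `(star_s)` in the language of S14678 -/
theorem star (s N : ℕ) (p : Fin N → ℝ) (X : Fin 4 → Fin N → Fin N) (h0 : ∀ ω, 0 ≤ p ω)
    (h1 : ∑ ω, p ω = 1) :
    fx (Hf p X) ≤ (1/2) ^ s * fB (Hf p X) + (2 * s + 1) * fH (Hf p X) := by
  rw [Hf_eq_hh, fH_eq]
  exact star_general ⟨h0, h1⟩ X s

theorem fB_nonneg (N : ℕ) (p : Fin N → ℝ) (X : Fin 4 → Fin N → Fin N) (h0 : ∀ ω, 0 ≤ p ω)
    (h1 : ∑ ω, p ω = 1) : 0 ≤ fB (Hf p X) := by
  rw [Hf_eq_hh]
  exact fB_hh_nonneg ⟨h0, h1⟩ X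

theorem fH_nonneg (N : ℕ) (p : Fin N → ℝ) (X : Fin 4 → Fin N → Fin N) (h0 : ∀ ω, 0 ≤ p ω)
    (h1 : ∑ ω, p ω = 1) : 0 ≤ fH (Hf p X) := by
  rw [Hf_eq_hh, fH_eq]
  have hp : IsProb p := ⟨h0, h1⟩
  have n1 := f1_nonneg hp X
  have n2 := f2_nonneg hp X
  have n3 := f3_nonneg hp X
  have n4 := f4_nonneg hp X
  have n5 := f5_nonneg hp X
  have n6 := f6_nonneg hp X
  linarith

end Pool.Agent.Helper20.Ent
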