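import Pool.Agent.Helper20.Ent.Tuple
import Pool.Agent.Helper20.Ent.Defs

/-!
One step of the chain: given a joint law of `(a,β,c,d)` with `(a,β) ~ (a,b)` and
`(a,c,d) ~ (a,c,d)`, sample `(c',d')` from `(a,β)`, then `b''` from `(a,c')` or `(a,d')`.
-/

set_option autoImplicit false

namespace Pool.Agent.Helper20.Ent

open Finset

/-- `I(a;b|c)` -/
def f1 (h : Finset (Fin 4) → ℝ) : ℝ := h {0,2} + h {1,2} - h {0,1,2} - h {2}
/-- `I(a;b|d)` -/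
def f2 (h : Finset (Fin 4) → ℝ) : ℝ := h {0,3} + h {1,3} - h {0,1,3} - h {3}
/-- `I(c;d)` -/
def f3 (h : Finset (Fin 4) → ℝ) : ℝ := h {2} + h {3} - h {2,3}
/-- `I(a;c|b)` -/
def f4 (h : Finset (Fin 4) → ℝ) : ℝ := h {0,1} + h {1,2} - h {0,1,2} - h {1}
/-- `I(a;d|b)` -/
def f5 (h : Finset (Fin 4) → ℝ) : ℝ := h {0,1} + h {1,3} - h {0,1,3} - h {1}
/-- `I(c;d|a)` -/
def f6 (h : Finset (Fin 4) → ℝ) : ℝ := h {0,2} + h {0,3} - h {0,2,3} - h {0}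

section

variable {Ω Ω₀ V : Type} [Fintype Ω] [Fintype Ω₀] [Fintype V]

/-- The seven variables `a, β, c, d, c', d', b''` on the extended space. -/
def X7 (X : Fin 4 → Ω → V) : Fin 7 → ((Ω × (V × V)) × V) → V :=
  ![fun t => X 0 t.1.1, fun t => X 1 t.1.1, fun t => X 2 t.1.1, fun t => X 3 t.1.1,
    fun t => t.1.2.1, fun t => t.1.2.2, fun t => t.2]

/-- repackaging a pair of pairs as a 4-tuple -/
def m4 (v : (V × V) × (V × V)) : Fin 4 → V := ![v.1.1, v.1.2, v.2.1, v.2.2]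

/-- repackaging as a 3-tuple -/
def m3 (v : (V × V) × V) : Fin 3 → V := ![v.1.1, v.2, v.1.2]

/-- first extension -/
noncomputable def p1 (μ : Ω₀ → ℝ) (Y : Fin 4 → Ω₀ → V) (p : Ω → ℝ) (X : Fin 4 → Ω → V) :
    Ω × (V × V) → ℝ :=
  ext p (fun ω => (X 0 ω, X 1 ω)) μ (fun w => (Y 0 w, Y 1 w)) (fun w => (Y 2 w, Y 3 w))

/-- second extension, `sel` = `Prod.fst` or `Prod.snd` -/
noncomputable def p2 (sel : V × V → V) (μ : Ω₀ → ℝ) (Y : Fin 4 → Ω₀ → V) (p : Ω → ℝ)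
    (X : Fin 4 → Ω → V) : (Ω × (V × V)) × V → ℝ :=
  ext (p1 μ Y p X) (fun t => (X 0 t.1, sel t.2)) μ (fun w => (Y 0 w, sel (Y 2 w, Y 3 w)))
    (fun w => Y 1 w)

variable {μ : Ω₀ → ℝ} (hμ : IsProb μ) (Y : Fin 4 → Ω₀ → V) {p : Ω → ℝ} (hp : IsProb p)
  (X : Fin 4 → Ω → V) (hab : pr p (fun ω => (X 0 ω, X 1 ω)) = pr μ (fun ω => (Y 0 ω, Y 1 ω)))
  (sel : V × V → V)

include hμ hp hab

theorem p1_isProb : IsProb (p1 μ Y p X) := ext_isProb hp hμ _ hab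

theorem p1_law : pr (p1 μ Y p X) (fun t => ((X 0 t.1, X 1 t.1), t.2))
    = pr μ (fun w => ((Y 0 w, Y 1 w), (Y 2 w, Y 3 w))) :=
  ext_new hμ.nonneg _ hab

theorem p1_fst {γ : Type} (G : Ω → γ) : pr (p1 μ Y p X) (fun t => G t.1) = pr p G :=
  ext_fst hp.nonneg _ hab G

theorem p1_sel : pr (p1 μ Y p X) (fun t => (X 0 t.1, sel t.2))
    = pr μ (fun w => (Y 0 w, sel (Y 2 w, Y 3 w))) :=
  pr_comp_congr (p1_law hμ Y hp X hab) (fun u => (u.1.1, sel u.2))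

theorem p2_isProb : IsProb (p2 sel μ Y p X) :=
  ext_isProb (p1_isProb hμ Y hp X hab) hμ _ (p1_sel hμ Y hp X hab sel)

theorem p2_fst {γ : Type} (G : Ω × (V × V) → γ) :
    pr (p2 sel μ Y p X) (fun t => G t.1) = pr (p1 μ Y p X) G :=
  ext_fst (p1_isProb hμ Y hp X hab).nonneg _ (p1_sel hμ Y hp X hab sel) G

theorem p2_law : pr (p2 sel μ Y p X) (fun t => ((X 0 t.1.1, sel t.1.2), t.2))
    = pr μ (fun w => ((Y 0 w, sel (Y 2 w, Y 3 w)), Y 1 w)) :=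
  ext_new hμ.nonneg _ (p1_sel hμ Y hp X hab sel)

/-- entropies of old variables -/
theorem K0 (S : Finset (Fin 4)) (T : Finset (Fin 7)) (hT : S.image ![0,1,2,3] = T) :
    hh (p2 sel μ Y p X) (X7 X) T = hh p X S := by
  classical
  subst hT
  have h := hh_law (p := p2 sel μ Y p X) (q := p) (X := X7 X) (Y := X)
    (![0,1,2,3] : Fin 4 → Fin 7) (fun i => i) ?_ S
  · simpa using h
  · have e : (fun (ω : (Ω × (V × V)) × V) (i : Fin 4) => X7 X ((![0,1,2,3] : Fin 4 → Fin 7) i) ω)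
        = fun t => fun i => X i t.1.1 := by
      funext t i
      fin_cases i <;> rfl
    rw [e]
    exact (p2_fst hμ Y hp X hab sel (fun t => fun i => X i t.1)).trans
      (p1_fst hμ Y hp X hab (fun ω i => X i ω))

/-- entropies of `(a, β, c', d')` -/
theorem K1 (S : Finset (Fin 4)) (T : Finset (Fin 7)) (hT : S.image ![0,1,4,5] = T) :
    hh (p2 sel μ Y p X) (X7 X) T = hh μ Y S := by
  classical
  subst hT
  have h := hh_law (p := p2 sel μ Y p X) (q := μ) (X := X7 X) (Y := Y)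
    (![0,1,4,5] : Fin 4 → Fin 7) (fun i => i) ?_ S
  · simpa using h
  · have e : (fun (ω : (Ω × (V × V)) × V) (i : Fin 4) => X7 X ((![0,1,4,5] : Fin 4 → Fin 7) i) ω)
        = fun t => m4 ((X 0 t.1.1, X 1 t.1.1), t.1.2) := by
      funext t i
      fin_cases i <;> rfl
    have e' : (fun (ω : Ω₀) (i : Fin 4) => Y i ω)
        = fun w => m4 ((Y 0 w, Y 1 w), (Y 2 w, Y 3 w)) := by
      funext t i
      fin_cases i <;> rfl
    rw [e, e']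
    exact (p2_fst hμ Y hp X hab sel (fun t => m4 ((X 0 t.1, X 1 t.1), t.2))).trans
      (pr_comp_congr (p1_law hμ Y hp X hab) m4)

theorem K2_fst (S : Finset (Fin 3)) (T : Finset (Fin 7)) (U : Finset (Fin 4))
    (hT : S.image ![0,6,4] = T) (hU : S.image ![0,1,2] = U) :
    hh (p2 Prod.fst μ Y p X) (X7 X) T = hh μ Y U := by
  classical
  subst hT hU
  refine hh_law (p := p2 Prod.fst μ Y p X) (q := μ) (X := X7 X) (Y := Y)
    (![0,6,4] : Fin 3 → Fin 7) (![0,1,2] : Fin 3 → Fin 4) ?_ S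
  have e : (fun (ω : (Ω × (V × V)) × V) (i : Fin 3) => X7 X ((![0,6,4] : Fin 3 → Fin 7) i) ω)
      = fun t => m3 ((X 0 t.1.1, Prod.fst t.1.2), t.2) := by
    funext t i
    fin_cases i <;> rfl
  have e' : (fun (ω : Ω₀) (i : Fin 3) => Y ((![0,1,2] : Fin 3 → Fin 4) i) ω)
      = fun w => m3 ((Y 0 w, Prod.fst (Y 2 w, Y 3 w)), Y 1 w) := by
    funext t i
    fin_cases i <;> rfl
  rw [e, e']
  exact pr_comp_congr (p2_law hμ Y hp X hab Prod.fst) m3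

theorem K2_snd (S : Finset (Fin 3)) (T : Finset (Fin 7)) (U : Finset (Fin 4))
    (hT : S.image ![0,6,5] = T) (hU : S.image ![0,1,3] = U) :
    hh (p2 Prod.snd μ Y p X) (X7 X) T = hh μ Y U := by
  classical
  subst hT hU
  refine hh_law (p := p2 Prod.snd μ Y p X) (q := μ) (X := X7 X) (Y := Y)
    (![0,6,5] : Fin 3 → Fin 7) (![0,1,3] : Fin 3 → Fin 4) ?_ S
  have e : (fun (ω : (Ω × (V × V)) × V) (i : Fin 3) => X7 X ((![0,6,5] : Fin 3 → Fin 7) i) ω)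
      = fun t => m3 ((X 0 t.1.1, Prod.snd t.1.2), t.2) := by
    funext t i
    fin_cases i <;> rfl
  have e' : (fun (ω : Ω₀) (i : Fin 3) => Y ((![0,1,3] : Fin 3 → Fin 4) i) ω)
      = fun w => m3 ((Y 0 w, Prod.snd (Y 2 w, Y 3 w)), Y 1 w) := by
    funext t i
    fin_cases i <;> rfl
  rw [e, e']
  exact pr_comp_congr (p2_law hμ Y hp X hab Prod.snd) m3

theorem Q1 : hh (p2 sel μ Y p X) (X7 X) {0,1,2,3,4,5} + hh (p2 sel μ Y p X) (X7 X) {0,1}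
    = hh (p2 sel μ Y p X) (X7 X) {0,1,2,3} + hh (p2 sel μ Y p X) (X7 X) {0,1,4,5} := by
  classical
  have h := ext_indep hp.nonneg (fun w => (Y 2 w, Y 3 w)) hab
    (fun ω => ((X 0 ω, X 1 ω), (X 2 ω, X 3 ω))) (fun v => v.1) (fun _ => rfl)
  change H (p1 μ Y p X) _ + H (p1 μ Y p X) _ = H (p1 μ Y p X) _ + H (p1 μ Y p X) _ at h
  have t : ∀ {γ : Type} [Fintype γ] (G : Ω × (V × V) → γ),
      H (p2 sel μ Y p X) (fun t => G t.1) = H (p1 μ Y p X) G := by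
    intro γ _ G
    exact H_congr_law (p2_fst hμ Y hp X hab sel G)
  rw [← t, ← t, ← t, ← t] at h
  rw [hh_eq_of_rel (p2 sel μ Y p X) (X7 X) {0,1,2,3,4,5}
      (fun t => (((X 0 t.1.1, X 1 t.1.1), (X 2 t.1.1, X 3 t.1.1)), t.1.2)) ?_,
    hh_eq_of_rel (p2 sel μ Y p X) (X7 X) {0,1} (fun t => (X 0 t.1.1, X 1 t.1.1)) ?_,
    hh_eq_of_rel (p2 sel μ Y p X) (X7 X) {0,1,2,3}
      (fun t => ((X 0 t.1.1, X 1 t.1.1), (X 2 t.1.1, X 3 t.1.1))) ?_,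
    hh_eq_of_rel (p2 sel μ Y p X) (X7 X) {0,1,4,5}
      (fun t => ((X 0 t.1.1, X 1 t.1.1), t.1.2)) ?_]
  · exact h
  all_goals
    intro ω ω'
    simp [X7, Prod.ext_iff, and_assoc]

theorem Q2_fst : hh (p2 Prod.fst μ Y p X) (X7 X) {0,1,2,3,4,5,6}
      + hh (p2 Prod.fst μ Y p X) (X7 X) {0,4}
    = hh (p2 Prod.fst μ Y p X) (X7 X) {0,1,2,3,4,5}
      + hh (p2 Prod.fst μ Y p X) (X7 X) {0,4,6} := by
  classical
  have h := ext_indep (p1_isProb hμ Y hp X hab).nonneg (fun w => Y 1 w)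
    (p1_sel hμ Y hp X hab Prod.fst)
    (fun t => (((X 0 t.1, X 1 t.1), (X 2 t.1, X 3 t.1)), t.2)) (fun v => (v.1.1.1, v.2.1))
    (fun _ => rfl)
  change H (p2 Prod.fst μ Y p X) _ + H (p2 Prod.fst μ Y p X) _
    = H (p2 Prod.fst μ Y p X) _ + H (p2 Prod.fst μ Y p X) _ at h
  rw [hh_eq_of_rel (p2 Prod.fst μ Y p X) (X7 X) {0,1,2,3,4,5,6}
      (fun t => ((((X 0 t.1.1, X 1 t.1.1), (X 2 t.1.1, X 3 t.1.1)), t.1.2), t.2)) ?_,
    hh_eq_of_rel (p2 Prod.fst μ Y p X) (X7 X) {0,4} (fun t => (X 0 t.1.1, Prod.fst t.1.2)) ?_,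
    hh_eq_of_rel (p2 Prod.fst μ Y p X) (X7 X) {0,1,2,3,4,5}
      (fun t => (((X 0 t.1.1, X 1 t.1.1), (X 2 t.1.1, X 3 t.1.1)), t.1.2)) ?_,
    hh_eq_of_rel (p2 Prod.fst μ Y p X) (X7 X) {0,4,6}
      (fun t => ((X 0 t.1.1, Prod.fst t.1.2), t.2)) ?_]
  · exact h
  all_goals
    intro ω ω'
    simp [X7, Prod.ext_iff, and_assoc]

theorem Q2_snd : hh (p2 Prod.snd μ Y p X) (X7 X) {0,1,2,3,4,5,6}
      + hh (p2 Prod.snd μ Y p X) (X7 X) {0,5}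
    = hh (p2 Prod.snd μ Y p X) (X7 X) {0,1,2,3,4,5}
      + hh (p2 Prod.snd μ Y p X) (X7 X) {0,5,6} := by
  classical
  have h := ext_indep (p1_isProb hμ Y hp X hab).nonneg (fun w => Y 1 w)
    (p1_sel hμ Y hp X hab Prod.snd)
    (fun t => (((X 0 t.1, X 1 t.1), (X 2 t.1, X 3 t.1)), t.2)) (fun v => (v.1.1.1, v.2.2))
    (fun _ => rfl)
  change H (p2 Prod.snd μ Y p X) _ + H (p2 Prod.snd μ Y p X) _
    = H (p2 Prod.snd μ Y p X) _ + H (p2 Prod.snd μ Y p X) _ at h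
  rw [hh_eq_of_rel (p2 Prod.snd μ Y p X) (X7 X) {0,1,2,3,4,5,6}
      (fun t => ((((X 0 t.1.1, X 1 t.1.1), (X 2 t.1.1, X 3 t.1.1)), t.1.2), t.2)) ?_,
    hh_eq_of_rel (p2 Prod.snd μ Y p X) (X7 X) {0,5} (fun t => (X 0 t.1.1, Prod.snd t.1.2)) ?_,
    hh_eq_of_rel (p2 Prod.snd μ Y p X) (X7 X) {0,1,2,3,4,5}
      (fun t => (((X 0 t.1.1, X 1 t.1.1), (X 2 t.1.1, X 3 t.1.1)), t.1.2)) ?_,
    hh_eq_of_rel (p2 Prod.snd μ Y p X) (X7 X) {0,5,6}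
      (fun t => ((X 0 t.1.1, Prod.snd t.1.2), t.2)) ?_]
  · exact h
  all_goals
    intro ω ω'
    simp [X7, Prod.ext_iff, and_assoc]

end

end Pool.Agent.Helper20.Ent
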