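import Pool.Agent.Helper20.Ent.Basic

/-!
Entropy vectors of tuples, and the polymatroid inequalities used in one step of the chain.
-/

set_option autoImplicit false

namespace Pool.Agent.Helper20.Ent

open Finset

section tuple

variable {Ω Ω' V ι κ : Type} [Fintype Ω] [Fintype Ω'] [Fintype V]

/-- entropy of the subtuple `S` of the tuple `X` -/
noncomputable def hh (p : Ω → ℝ) (X : ι → Ω → V) (S : Finset ι) : ℝ :=
  H p (fun ω (i : S) => X i ω)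

theorem hh_eq_of_rel {α : Type} (p : Ω → ℝ) (X : ι → Ω → V) (S : Finset ι) (F : Ω → α)
    (h : ∀ ω ω', (∀ i ∈ S, X i ω = X i ω') ↔ F ω = F ω') : hh p X S = H p F := by
  unfold hh
  refine H_congr p fun ω ω' => ?_
  rw [← h ω ω', funext_iff]
  simp

theorem hh_submod [DecidableEq ι] {p : Ω → ℝ} (hp : IsProb p) (X : ι → Ω → V)
    (S T : Finset ι) : hh p X (S ∪ T) + hh p X (S ∩ T) ≤ hh p X S + hh p X T := by
  classical
  have h := submod hp (fun ω (i : S) => X i ω) (fun ω (i : T) => X i ω)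
    (fun ω (i : (S ∩ T : Finset ι)) => X i ω)
  have e1 : hh p X (S ∪ T) = H p (fun ω => ((fun (i : S) => X i ω), (fun (i : T) => X i ω),
      (fun (i : (S ∩ T : Finset ι)) => X i ω))) := by
    refine hh_eq_of_rel _ _ _ _ fun ω ω' => ?_
    simp only [Prod.mk.injEq, funext_iff, Subtype.forall, Finset.mem_union, Finset.mem_inter]
    constructor
    · intro h
      exact ⟨fun i hi => h i (Or.inl hi), fun i hi => h i (Or.inr hi), fun i hi => h i (Or.inl hi.1)⟩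
    · rintro ⟨h1, h2, -⟩ i (hi | hi)
      · exact h1 i hi
      · exact h2 i hi
  have e2 : hh p X S = H p (fun ω => ((fun (i : S) => X i ω),
      (fun (i : (S ∩ T : Finset ι)) => X i ω))) := by
    refine hh_eq_of_rel _ _ _ _ fun ω ω' => ?_
    simp only [Prod.mk.injEq, funext_iff, Subtype.forall, Finset.mem_inter]
    exact ⟨fun h => ⟨fun i hi => h i hi, fun i hi => h i hi.1⟩, fun h => h.1⟩
  have e3 : hh p X T = H p (fun ω => ((fun (i : T) => X i ω),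
      (fun (i : (S ∩ T : Finset ι)) => X i ω))) := by
    refine hh_eq_of_rel _ _ _ _ fun ω ω' => ?_
    simp only [Prod.mk.injEq, funext_iff, Subtype.forall, Finset.mem_inter]
    exact ⟨fun h => ⟨fun i hi => h i hi, fun i hi => h i hi.2⟩, fun h => h.1⟩
  rw [e1, e2, e3]
  exact h

theorem hh_image [DecidableEq ι] (p : Ω → ℝ) (X : ι → Ω → V) (σ : κ → ι) (S : Finset κ) :
    hh p X (S.image σ) = H p (fun ω (i : S) => X (σ i) ω) := by
  refine hh_eq_of_rel _ _ _ _ fun ω ω' => ?_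
  simp [funext_iff]

theorem hh_law {ι' : Type} [DecidableEq ι] [DecidableEq ι'] [Fintype κ] {p : Ω → ℝ} {q : Ω' → ℝ}
    {X : ι → Ω → V} {Y : ι' → Ω' → V} (σ : κ → ι) (ρ : κ → ι')
    (h : pr p (fun ω i => X (σ i) ω) = pr q (fun ω i => Y (ρ i) ω)) (S : Finset κ) :
    hh p X (S.image σ) = hh q Y (S.image ρ) := by
  classical
  rw [hh_image, hh_image]
  exact H_comp_congr h (fun v (i : S) => v i)

end tuple

/-- submodular set functions, in a form convenient for `linarith` -/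
theorem sub4 {n : ℕ} {h : Finset (Fin n) → ℝ} (hs : ∀ S T, h (S ∪ T) + h (S ∩ T) ≤ h S + h T)
    (S T U W : Finset (Fin n)) (hU : S ∪ T = U) (hW : S ∩ T = W) : h U + h W ≤ h S + h T := by
  subst hU hW; exact hs S T

section poly

variable {h : Finset (Fin 7) → ℝ} (hs : ∀ S T, h (S ∪ T) + h (S ∩ T) ≤ h S + h T)

include hs

/-- `I(z;c'|a) + I(z;d'|a) <= I(z;β|a) + I(c';d'|a)` -/
theorem poly_halve
    (Q1 : h {0,1,2,3,4,5} + h {0,1} = h {0,1,2,3} + h {0,1,4,5}) :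
    (h {0,2,3} + h {0,4} - h {0,2,3,4} - h {0}) + (h {0,2,3} + h {0,5} - h {0,2,3,5} - h {0})
      ≤ (h {0,2,3} + h {0,1} - h {0,1,2,3} - h {0}) + (h {0,4} + h {0,5} - h {0,4,5} - h {0}) := by
  -- I(z;4|0)+I(z;5|0) <= I(z;45|0)+I(4;5|0): h{0234}+h{0235} >= h{02345}+h{023}
  have i1 := sub4 hs {0,2,3,4} {0,2,3,5} {0,2,3,4,5} {0,2,3} (by decide) (by decide)
  -- I(z;45|0) <= I(z;145|0)
  have i2 := sub4 hs {0,2,3,4,5} {0,1,4,5} {0,1,2,3,4,5} {0,4,5} (by decide) (by decide)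
  linarith

/-- `I(z;b''|a) <= I(z;c'|a)` when `b''` was sampled from `(a,c')` -/
theorem poly_dp4 (Q2 : h {0,1,2,3,4,5,6} + h {0,4} = h {0,1,2,3,4,5} + h {0,4,6}) :
    h {0,2,3} + h {0,6} - h {0,2,3,6} - h {0} ≤ h {0,2,3} + h {0,4} - h {0,2,3,4} - h {0} := by
  have i1 := sub4 hs {0,2,3,4,6} {0,1,2,3,4,5} {0,1,2,3,4,5,6} {0,2,3,4} (by decide) (by decide)
  have i2 := sub4 hs {0,2,3,6} {0,4,6} {0,2,3,4,6} {0,6} (by decide) (by decide)
  linarith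

theorem poly_dp5 (Q2 : h {0,1,2,3,4,5,6} + h {0,5} = h {0,1,2,3,4,5} + h {0,5,6}) :
    h {0,2,3} + h {0,6} - h {0,2,3,6} - h {0} ≤ h {0,2,3} + h {0,5} - h {0,2,3,5} - h {0} := by
  have i1 := sub4 hs {0,2,3,5,6} {0,1,2,3,4,5} {0,1,2,3,4,5,6} {0,2,3,5} (by decide) (by decide)
  have i2 := sub4 hs {0,2,3,6} {0,5,6} {0,2,3,5,6} {0,6} (by decide) (by decide)
  linarith

/-- heavy term, conditioning on `c`, `b''` sampled from `(a,c')` -/
theorem poly_heavy24 (Q1 : h {0,1,2,3,4,5} + h {0,1} = h {0,1,2,3} + h {0,1,4,5})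
    (Q2 : h {0,1,2,3,4,5,6} + h {0,4} = h {0,1,2,3,4,5} + h {0,4,6}) :
    h {0,2} + h {2,6} - h {0,2,6} - h {2} ≤ (h {0,2} + h {1,2} - h {0,1,2} - h {2})
      + (h {0,1} + h {1,4} - h {0,1,4} - h {1}) + (h {0,4} + h {4,6} - h {0,4,6} - h {4}) := by
  have i1 := sub4 hs {0,2,6} {1,2,4,6} {0,1,2,4,6} {2,6} (by decide) (by decide)
  have i2 := sub4 hs {1,2} {1,4} {1,2,4} {1} (by decide) (by decide)
  have i3 := sub4 hs {0,1,2,3} {0,1,2,4} {0,1,2,3,4} {0,1,2} (by decide) (by decide)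
  have i4 := sub4 hs {0,1,2,3,4} {0,1,4,5} {0,1,2,3,4,5} {0,1,4} (by decide) (by decide)
  have i5 := sub4 hs {1,2,4} {4,6} {1,2,4,6} {4} (by decide) (by decide)
  have i6 := sub4 hs {0,1,2,4,6} {0,1,2,3,4,5} {0,1,2,3,4,5,6} {0,1,2,4} (by decide) (by decide)
  linarith

theorem poly_heavy25 (Q1 : h {0,1,2,3,4,5} + h {0,1} = h {0,1,2,3} + h {0,1,4,5})
    (Q2 : h {0,1,2,3,4,5,6} + h {0,5} = h {0,1,2,3,4,5} + h {0,5,6}) :
    h {0,2} + h {2,6} - h {0,2,6} - h {2} ≤ (h {0,2} + h {1,2} - h {0,1,2} - h {2})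
      + (h {0,1} + h {1,5} - h {0,1,5} - h {1}) + (h {0,5} + h {5,6} - h {0,5,6} - h {5}) := by
  have i1 := sub4 hs {0,2,6} {1,2,5,6} {0,1,2,5,6} {2,6} (by decide) (by decide)
  have i2 := sub4 hs {1,2} {1,5} {1,2,5} {1} (by decide) (by decide)
  have i3 := sub4 hs {0,1,2,3} {0,1,2,5} {0,1,2,3,5} {0,1,2} (by decide) (by decide)
  have i4 := sub4 hs {0,1,2,3,5} {0,1,4,5} {0,1,2,3,4,5} {0,1,5} (by decide) (by decide)
  have i5 := sub4 hs {1,2,5} {5,6} {1,2,5,6} {5} (by decide) (by decide)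
  have i6 := sub4 hs {0,1,2,5,6} {0,1,2,3,4,5} {0,1,2,3,4,5,6} {0,1,2,5} (by decide) (by decide)
  linarith

theorem poly_heavy34 (Q1 : h {0,1,2,3,4,5} + h {0,1} = h {0,1,2,3} + h {0,1,4,5})
    (Q2 : h {0,1,2,3,4,5,6} + h {0,4} = h {0,1,2,3,4,5} + h {0,4,6}) :
    h {0,3} + h {3,6} - h {0,3,6} - h {3} ≤ (h {0,3} + h {1,3} - h {0,1,3} - h {3})
      + (h {0,1} + h {1,4} - h {0,1,4} - h {1}) + (h {0,4} + h {4,6} - h {0,4,6} - h {4}) := by
  have i1 := sub4 hs {0,3,6} {1,3,4,6} {0,1,3,4,6} {3,6} (by decide) (by decide)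
  have i2 := sub4 hs {1,3} {1,4} {1,3,4} {1} (by decide) (by decide)
  have i3 := sub4 hs {0,1,2,3} {0,1,3,4} {0,1,2,3,4} {0,1,3} (by decide) (by decide)
  have i4 := sub4 hs {0,1,2,3,4} {0,1,4,5} {0,1,2,3,4,5} {0,1,4} (by decide) (by decide)
  have i5 := sub4 hs {1,3,4} {4,6} {1,3,4,6} {4} (by decide) (by decide)
  have i6 := sub4 hs {0,1,3,4,6} {0,1,2,3,4,5} {0,1,2,3,4,5,6} {0,1,3,4} (by decide) (by decide)
  linarith

theorem poly_heavy35 (Q1 : h {0,1,2,3,4,5} + h {0,1} = h {0,1,2,3} + h {0,1,4,5})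
    (Q2 : h {0,1,2,3,4,5,6} + h {0,5} = h {0,1,2,3,4,5} + h {0,5,6}) :
    h {0,3} + h {3,6} - h {0,3,6} - h {3} ≤ (h {0,3} + h {1,3} - h {0,1,3} - h {3})
      + (h {0,1} + h {1,5} - h {0,1,5} - h {1}) + (h {0,5} + h {5,6} - h {0,5,6} - h {5}) := by
  have i1 := sub4 hs {0,3,6} {1,3,5,6} {0,1,3,5,6} {3,6} (by decide) (by decide)
  have i2 := sub4 hs {1,3} {1,5} {1,3,5} {1} (by decide) (by decide)
  have i3 := sub4 hs {0,1,2,3} {0,1,3,5} {0,1,2,3,5} {0,1,3} (by decide) (by decide)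
  have i4 := sub4 hs {0,1,2,3,5} {0,1,4,5} {0,1,2,3,4,5} {0,1,5} (by decide) (by decide)
  have i5 := sub4 hs {1,3,5} {5,6} {1,3,5,6} {5} (by decide) (by decide)
  have i6 := sub4 hs {0,1,3,5,6} {0,1,2,3,4,5} {0,1,2,3,4,5,6} {0,1,3,5} (by decide) (by decide)
  linarith

end poly

end Pool.Agent.Helper20.Ent
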